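import Pool.Agent.Helper41_VTP.BPC

/-!
# Row BCH of squad VTP: products and binomials
-/

set_option autoImplicit false

namespace Pool.Agent.VTP.H41

open Finset Pool.Agent.ZOL Pool.Agent.VTP

theorem desc_eval_int (b : ℕ) (x : ℤ) :
    (descPochhammer ℚ b).eval (x : ℚ) = (b.factorial : ℚ) * ((Ring.choose x b : ℤ) : ℚ) := by
  have h := Ring.descPochhammer_eq_factorial_smul_choose x b
  have h1 : (descPochhammer ℚ b).eval (x : ℚ) = (((descPochhammer ℤ b).eval x : ℤ) : ℚ) := by
    rw [← descPochhammer_map (Int.castRingHom ℚ), Polynomial.eval_map, Polynomial.eval₂_at_intCast]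
    simp
  have h2 : (descPochhammer ℤ b).smeval x = (descPochhammer ℤ b).eval x := by
    rw [Polynomial.eval_eq_smeval]
  rw [h1, ← h2, h, nsmul_eq_mul]
  push_cast
  rfl

theorem bch (hB : BpcStmt) : BchStmt := by
  refine ⟨fun m n k g h c d hm hn hg hh hk => ?_, fun n b g c hn hb hg => ?_,
    fun n k g c hn hg hk => ?_⟩
  · obtain ⟨hg0, P, hP, hPe, -⟩ := (hB m g c hm).mp hg
    obtain ⟨hh0, Q, hQ, hQe, -⟩ := (hB n h d hn).mp hh
    refine (hB k _ 0 (by omega)).mpr ⟨by simp [hg0], P * Q, ?_, ?_, ?_⟩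
    · exact le_trans Polynomial.natDegree_mul_le (by omega)
    · intro j
      rw [Polynomial.eval_mul, Int.cast_mul, hPe j, hQe j]
    · rw [Polynomial.coeff_eq_zero_of_natDegree_lt
        (lt_of_le_of_lt Polynomial.natDegree_mul_le (by omega))]
      simp
  · obtain ⟨hg0, P, hP, hPe, -⟩ := (hB n g c hn).mp hg
    obtain ⟨c', hc', -⟩ := bp_of_poly (n * b) (fun j => Ring.choose (g j) b)
      (by
        show Ring.choose (g 0) b = 0
        rw [hg0]
        exact Ring.choose_zero_pos ℤ (by omega))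
      (Polynomial.C ((1 : ℚ) / b.factorial) * (descPochhammer ℚ b).comp P)
      (by
        refine le_trans (Polynomial.natDegree_C_mul_le _ _) ?_
        rw [Polynomial.natDegree_comp, descPochhammer_natDegree, mul_comm]
        exact Nat.mul_le_mul_right b hP)
      (by
        intro j
        rw [Polynomial.eval_mul, Polynomial.eval_C, Polynomial.eval_comp, ← hPe j, desc_eval_int]
        have : (b.factorial : ℚ) ≠ 0 := by exact_mod_cast b.factorial_ne_zero
        field_simp)
    exact ⟨c', hc'⟩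
  · obtain ⟨hg0, P, hP, hPe, -⟩ := (hB n g c hn).mp hg
    refine (hB k _ 0 (by omega)).mpr ⟨hg0, P, by omega, hPe, ?_⟩
    rw [Polynomial.coeff_eq_zero_of_natDegree_lt (lt_of_le_of_lt hP hk)]
    simp

end Pool.Agent.VTP.H41
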