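import Pool.Agent.VTP.StmtsT
import Mathlib.Algebra.Group.ForwardDiff

/-!
# Row BPC of squad VTP: integral combinations of binomials are integer valued polynomials
-/

set_option autoImplicit false

namespace Pool.Agent.VTP.H41

open Finset Pool.Agent.ZOL Pool.Agent.VTP

/-- From a polynomial to the combination of binomials. -/
theorem bp_of_poly (n : ℕ) (g : ℕ → ℤ) (hg : g 0 = 0) (P : Polynomial ℚ) (hP : P.natDegree ≤ n)
    (hev : ∀ j : ℕ, (g j : ℚ) = P.eval (j : ℚ)) :
    ∃ c : ℤ, BP n g c ∧ P.coeff n * (n.factorial : ℚ) = c := by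
  set a : ℕ → ℤ := fun r => ((fwdDiff (1 : ℕ))^[r] g) 0 with ha
  have hcast : ∀ r, (a r : ℚ) = ((fwdDiff (1 : ℚ))^[r] P.eval) 0 := by
    intro r
    rw [ha]
    simp only
    rw [fwdDiff_iter_eq_sum_shift, fwdDiff_iter_eq_sum_shift, Int.cast_sum]
    refine sum_congr rfl fun k _ => ?_
    rw [smul_eq_mul, zsmul_eq_mul, Int.cast_mul]
    congr 1
    have h1 : (0 : ℕ) + k • (1 : ℕ) = k := by simp
    have h2 : (0 : ℚ) + k • (1 : ℚ) = (k : ℚ) := by simp
    rw [h1, h2, hev k]
  have hzero : ∀ r, n < r → a r = 0 := by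
    intro r hr
    have : (a r : ℚ) = 0 := by
      rw [hcast, Polynomial.fwdDiff_iter_eq_zero_of_degree_lt (lt_of_le_of_lt hP hr)]
      rfl
    exact_mod_cast this
  have ha0 : a 0 = 0 := by
    rw [ha]
    simpa using hg
  have htop : (a n : ℚ) = P.coeff n * (n.factorial : ℚ) := by
    rw [hcast]
    rcases lt_or_eq_of_le hP with h | h
    · rw [Polynomial.fwdDiff_iter_eq_zero_of_degree_lt h, Polynomial.coeff_eq_zero_of_natDegree_lt h,
        zero_mul]
      rfl
    · rw [← h, Polynomial.fwdDiff_iter_degree_eq_factorial]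
      simp
  refine ⟨a n, ⟨a, fun j => ?_, rfl⟩, htop.symm⟩
  have hN := shift_eq_sum_fwdDiff_iter (1 : ℕ) g j 0
  have h1 : (0 : ℕ) + j • (1 : ℕ) = j := by simp
  rw [h1] at hN
  rw [hN]
  have e1 : ∑ k ∈ range (j + 1), j.choose k • ((fwdDiff (1 : ℕ))^[k] g) 0 =
      ∑ r ∈ range (j + n + 1), a r * (j.choose r : ℤ) := by
    rw [← sum_subset (s₁ := range (j + 1)) (s₂ := range (j + n + 1))]
    · refine sum_congr rfl fun k _ => ?_
      rw [nsmul_eq_mul, mul_comm]
    · intro x hx
      rw [mem_range] at hx ⊢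
      omega
    · intro x _ hx
      rw [mem_range, not_lt] at hx
      rw [Nat.choose_eq_zero_of_lt (by omega)]
      simp
  have e2 : ∑ r ∈ Icc 1 n, a r * (j.choose r : ℤ) =
      ∑ r ∈ range (j + n + 1), a r * (j.choose r : ℤ) := by
    refine sum_subset ?_ ?_
    · intro x hx
      rw [mem_Icc] at hx
      rw [mem_range]
      omega
    · intro x _ hx
      rw [mem_Icc, not_and, not_le] at hx
      rcases Nat.eq_zero_or_pos x with h | h
      · rw [h, ha0, zero_mul]
      · rw [hzero x (hx h), zero_mul]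
  rw [e1, e2]

theorem desc_eval (r j : ℕ) :
    (descPochhammer ℚ r).eval (j : ℚ) = (r.factorial : ℚ) * (j.choose r : ℚ) := by
  rw [descPochhammer_eval_eq_descFactorial, Nat.descFactorial_eq_factorial_mul_choose]
  push_cast
  ring

theorem bpc : BpcStmt := by
  intro n g c hn
  constructor
  · rintro ⟨a, hg, hc⟩
    refine ⟨?_, ?_⟩
    · rw [hg 0]
      refine sum_eq_zero fun r hr => ?_
      rw [mem_Icc] at hr
      rw [Nat.choose_eq_zero_of_lt (by omega)]
      simp
    · refine ⟨∑ r ∈ Icc 1 n, Polynomial.C ((a r : ℚ) / r.factorial) * descPochhammer ℚ r,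
        ?_, ?_, ?_⟩
      · refine Polynomial.natDegree_sum_le_of_forall_le _ _ fun r hr => ?_
        rw [mem_Icc] at hr
        refine le_trans (Polynomial.natDegree_C_mul_le _ _) ?_
        rw [descPochhammer_natDegree]
        exact hr.2
      · intro j
        rw [hg j, Int.cast_sum, Polynomial.eval_finsetSum]
        refine sum_congr rfl fun r _ => ?_
        rw [Polynomial.eval_mul, Polynomial.eval_C, desc_eval]
        have : (r.factorial : ℚ) ≠ 0 := by exact_mod_cast r.factorial_ne_zero
        push_cast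
        field_simp
      · rw [Polynomial.finsetSum_coeff]
        have hz : ∀ r ∈ Icc 1 n, r ≠ n →
            (Polynomial.C ((a r : ℚ) / r.factorial) * descPochhammer ℚ r).coeff n = 0 := by
          intro r hr hrn
          rw [mem_Icc] at hr
          rw [Polynomial.coeff_C_mul, Polynomial.coeff_eq_zero_of_natDegree_lt, mul_zero]
          rw [descPochhammer_natDegree]
          omega
        rw [sum_eq_single_of_mem n (mem_Icc.mpr ⟨hn, le_rfl⟩) hz, Polynomial.coeff_C_mul]
        have hm : (descPochhammer ℚ n).coeff n = 1 := by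
          have h1 := monic_descPochhammer ℚ n
          have h2 := descPochhammer_natDegree ℚ n
          rw [Polynomial.Monic, Polynomial.leadingCoeff, h2] at h1
          exact h1
        have : (n.factorial : ℚ) ≠ 0 := by exact_mod_cast n.factorial_ne_zero
        rw [hm, mul_one, ← hc]
        field_simp
  · rintro ⟨hg, P, hP, hev, hc⟩
    obtain ⟨c', hb, hc'⟩ := bp_of_poly n g hg P hP hev
    rw [hc] at hc'
    have : c = c' := by exact_mod_cast hc'
    rw [this]
    exact hb

end Pool.Agent.VTP.H41
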