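import Pool.Agent.VTP.StmtsG

/-!
# Row ITR of squad VTP: the derivations commute and are iterative up to lower terms
-/

set_option autoImplicit false

namespace Pool.Agent.VTP.H41

open Finset Pool.Agent.ZOL Pool.Agent.VTP

theorem theta_single {K : Type} (v : K → ℤ) (j : ℕ) (k : K) (x : ℤ) :
    theta v j (Finsupp.single k x) = Finsupp.single k (Ring.choose (v k) j * x) := by
  simp [theta]

/-- Product of two binomials. -/
theorem choose_mul (v : ℤ) (a b : ℕ) :
    Ring.choose v a * Ring.choose v b - ((a + b).choose a : ℤ) * Ring.choose v (a + b) =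
      ∑ i ∈ range b, (Ring.choose (a : ℤ) (i + 1) * ((a + (b - (i + 1))).choose a : ℤ)) *
        Ring.choose v (a + (b - (i + 1))) := by
  have h1 : Ring.choose v b = ∑ ij ∈ antidiagonal b,
      Ring.choose (a : ℤ) ij.1 * Ring.choose (v - a) ij.2 := by
    have := Ring.add_choose_eq (r := (a : ℤ)) (s := v - a) b (Commute.all _ _)
    rw [← this]
    congr 1
    ring
  have h2 : ∀ j : ℕ, Ring.choose v a * Ring.choose (v - a) j =
      ((a + j).choose a : ℤ) * Ring.choose v (a + j) := by
    intro j
    have := Ring.choose_smul_choose v (n := a + j) (k := a) (Nat.le_add_right a j)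
    rw [Nat.add_sub_cancel_left, nsmul_eq_mul] at this
    exact this.symm
  have h3 : Ring.choose v a * Ring.choose v b = ∑ i ∈ range (b + 1),
      Ring.choose (a : ℤ) i * (((a + (b - i)).choose a : ℤ) * Ring.choose v (a + (b - i))) := by
    rw [h1, Finset.mul_sum, Finset.Nat.sum_antidiagonal_eq_sum_range_succ_mk]
    refine sum_congr rfl fun i _ => ?_
    show Ring.choose v a * (Ring.choose (a : ℤ) i * Ring.choose (v - a) (b - i)) = _
    rw [← h2]
    ring
  rw [h3, sum_range_succ']
  have h4 : Ring.choose (a : ℤ) 0 * (((a + (b - 0)).choose a : ℤ) * Ring.choose v (a + (b - 0))) =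
      ((a + b).choose a : ℤ) * Ring.choose v (a + b) := by
    rw [Ring.choose_zero_right, Nat.sub_zero, one_mul]
  rw [h4, add_sub_cancel_right]
  exact sum_congr rfl fun i _ => by ring

theorem theta_theta {K : Type} (v : K → ℤ) (a b : ℕ) (x : K →₀ ℤ) :
    theta v a (theta v b x) - ((a + b).choose a : ℤ) • theta v (a + b) x =
      ∑ i ∈ range b, (Ring.choose (a : ℤ) (i + 1) * ((a + (b - (i + 1))).choose a : ℤ)) •
        theta v (a + (b - (i + 1))) x := by
  have key : ((theta v a).comp (theta v b) - ((a + b).choose a : ℤ) • theta v (a + b)) =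
      ∑ i ∈ range b, (Ring.choose (a : ℤ) (i + 1) * ((a + (b - (i + 1))).choose a : ℤ)) •
        theta v (a + (b - (i + 1))) := by
    refine Finsupp.addHom_ext fun k y => ?_
    rw [AddMonoidHom.sub_apply, AddMonoidHom.comp_apply, AddMonoidHom.smul_apply,
      AddMonoidHom.finsetSum_apply, theta_single, theta_single, theta_single,
      Finsupp.smul_single, ← Finsupp.single_sub]
    have : ∀ i ∈ range b, ((Ring.choose (a : ℤ) (i + 1) *
        ((a + (b - (i + 1))).choose a : ℤ)) • theta v (a + (b - (i + 1)))) (Finsupp.single k y) =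
        Finsupp.single k ((Ring.choose (a : ℤ) (i + 1) * ((a + (b - (i + 1))).choose a : ℤ)) *
          Ring.choose (v k) (a + (b - (i + 1))) * y) := by
      intro i _
      rw [AddMonoidHom.smul_apply, theta_single, Finsupp.smul_single, smul_eq_mul]
      congr 1
      ring
    rw [sum_congr rfl this, ← Finsupp.single_finsetSum, ← Finset.sum_mul, ← choose_mul (v k) a b]
    congr 1
    rw [smul_eq_mul]
    ring
  have := DFunLike.congr_fun key x
  rw [AddMonoidHom.sub_apply, AddMonoidHom.comp_apply, AddMonoidHom.smul_apply,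
    AddMonoidHom.finsetSum_apply] at this
  simpa only [AddMonoidHom.smul_apply] using this

theorem itr : ItrStmt := by
  refine ⟨fun K u v a b x => ?_, fun K G v m hm hG hth a b d hd x hx => ?_⟩
  · have key : (theta u a).comp (theta v b) = (theta v b).comp (theta u a) := by
      refine Finsupp.addHom_ext fun k y => ?_
      rw [AddMonoidHom.comp_apply, AddMonoidHom.comp_apply, theta_single, theta_single,
        theta_single, theta_single]
      congr 1
      ring
    exact DFunLike.congr_fun key x
  · rw [theta_theta]
    refine AddSubgroup.sum_mem _ fun i hi => AddSubgroup.zsmul_mem _ ?_ _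
    have hi' := mem_range.mp hi
    refine hG ?_ (hth (a + (b - (i + 1))) d x hx)
    have h1 : m * (a + (b - (i + 1))) + m ≤ m * (a + b) := by
      have : a + (b - (i + 1)) + 1 ≤ a + b := by omega
      calc m * (a + (b - (i + 1))) + m = m * (a + (b - (i + 1)) + 1) := by ring
        _ ≤ m * (a + b) := Nat.mul_le_mul_left m this
    omega

end Pool.Agent.VTP.H41
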