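import Pool.Agent.VTP.StmtsG

/-!
# Row NPG of squad VTP: growth of the number of partitions into parts at least two
-/

set_option autoImplicit false

namespace Pool.Agent.VTP.H41

open Finset Pool.Agent.ZOL Pool.Agent.VTP

/-- The multisets counted by `np`. -/
abbrev PT (n : ℕ) : Type := {s : Multiset ℕ // (∀ x ∈ s, 2 ≤ x) ∧ s.sum = n}

theorem finite_PT (n : ℕ) : Finite (PT n) := by
  let f : PT n → Nat.Partition n := fun s =>
    ⟨s.1, fun {i} hi => lt_of_lt_of_le (by norm_num) (s.2.1 i hi), s.2.2⟩
  refine Finite.of_injective f fun s t h => ?_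
  have : s.1 = t.1 := congrArg Nat.Partition.parts h
  exact Subtype.ext this

/-- A multiset of parts two and three. -/
def fill (r : ℕ) : Multiset ℕ :=
  if Even r then Multiset.replicate (r / 2) 2 else 3 ::ₘ Multiset.replicate ((r - 3) / 2) 2

theorem fill_mem (r x : ℕ) (h : x ∈ fill r) : x = 2 ∨ x = 3 := by
  unfold fill at h
  split_ifs at h
  · exact Or.inl (Multiset.eq_of_mem_replicate h)
  · rw [Multiset.mem_cons] at h
    rcases h with h | h
    · exact Or.inr h
    · exact Or.inl (Multiset.eq_of_mem_replicate h)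

theorem fill_sum (r : ℕ) (hr : 2 ≤ r) : (fill r).sum = r := by
  unfold fill
  split_ifs with h
  · rw [Multiset.sum_replicate, smul_eq_mul]
    exact Nat.div_mul_cancel h.two_dvd
  · rw [Multiset.sum_cons, Multiset.sum_replicate, smul_eq_mul]
    rw [Nat.not_even_iff_odd] at h
    obtain ⟨k, rfl⟩ := h
    have : (2 * k + 1 - 3) / 2 = k - 1 := by omega
    rw [this]
    omega

/-- The large parts. -/
def big (K L : ℕ) (a : Fin K → Fin L) : Multiset ℕ :=
  ∑ i : Fin K, Multiset.replicate (a i : ℕ) ((i : ℕ) + 4)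

theorem big_mem (K L : ℕ) (a : Fin K → Fin L) (x : ℕ) (h : x ∈ big K L a) : 4 ≤ x := by
  unfold big at h
  rw [Multiset.mem_sum] at h
  obtain ⟨i, _, hi⟩ := h
  have := Multiset.eq_of_mem_replicate hi
  omega

theorem big_count (K L : ℕ) (a : Fin K → Fin L) (j : Fin K) :
    (big K L a).count ((j : ℕ) + 4) = (a j : ℕ) := by
  unfold big
  rw [Multiset.count_sum']
  rw [Finset.sum_eq_single j]
  · rw [Multiset.count_replicate_self]
  · intro i _ hij
    rw [Multiset.count_replicate, if_neg]
    intro h
    exact hij (Fin.ext (by omega))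
  · intro h
    exact absurd (mem_univ j) h

theorem big_sum (K L : ℕ) (a : Fin K → Fin L) :
    (big K L a).sum = ∑ i : Fin K, (a i : ℕ) * ((i : ℕ) + 4) := by
  unfold big
  rw [Multiset.sum_sum]
  refine sum_congr rfl fun i _ => ?_
  rw [Multiset.sum_replicate, smul_eq_mul]

theorem big_sum_le (K L : ℕ) (a : Fin K → Fin L) :
    (big K L a).sum ≤ K * ((L - 1) * (K + 3)) := by
  rw [big_sum]
  refine le_trans (sum_le_card_nsmul _ _ ((L - 1) * (K + 3)) fun i _ => ?_) ?_
  · have h1 := (a i).2
    have h2 := i.2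
    exact Nat.mul_le_mul (by omega) (by omega)
  · rw [card_univ, Fintype.card_fin, smul_eq_mul]

theorem pow_le_np (n K L : ℕ) (h : K * ((L - 1) * (K + 3)) + 2 ≤ n) : L ^ K ≤ np n := by
  have hF := finite_PT n
  let f : (Fin K → Fin L) → PT n := fun a =>
    ⟨big K L a + fill (n - (big K L a).sum), by
      intro x hx
      rw [Multiset.mem_add] at hx
      rcases hx with hx | hx
      · exact le_trans (by norm_num) (big_mem K L a x hx)
      · rcases fill_mem _ x hx with h | h <;> omega, by
      have hb := big_sum_le K L a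
      rw [Multiset.sum_add, fill_sum _ (by omega)]
      omega⟩
  have hinj : Function.Injective f := by
    intro a b hab
    have h1 : big K L a + fill (n - (big K L a).sum) = big K L b + fill (n - (big K L b).sum) :=
      congrArg Subtype.val hab
    funext j
    have h2 := congrArg (Multiset.count ((j : ℕ) + 4)) h1
    rw [Multiset.count_add, Multiset.count_add, big_count, big_count] at h2
    have h3 : ∀ r, (fill r).count ((j : ℕ) + 4) = 0 := by
      intro r
      rw [Multiset.count_eq_zero]
      intro hm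
      rcases fill_mem r _ hm with h | h <;> omega
    rw [h3, h3, add_zero, add_zero] at h2
    exact Fin.ext h2
  have hc := Nat.card_le_card_of_injective f hinj
  rw [Nat.card_fun, Nat.card_fin, Nat.card_fin] at hc
  exact hc

theorem npg : NpgStmt := by
  intro k
  set K := k + 2 with hK
  set Q := K * (K + 3) with hQ
  have hQ10 : 10 ≤ Q := by
    rw [hQ, hK]
    nlinarith
  refine ⟨(2 * Q) ^ K, fun n hn => ?_⟩
  have h2Q : 2 * Q ≤ (2 * Q) ^ K := Nat.le_self_pow (by omega) _
  have hQn : Q ≤ n := by omega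
  set L := n / Q with hL
  have hL1 : 1 ≤ L := (Nat.one_le_div_iff (by omega)).mpr hQn
  have hQL : Q * L ≤ n := Nat.mul_div_le n Q
  have hlt : n < Q * (L + 1) := by
    have := Nat.lt_mul_div_succ n (show 0 < Q by omega)
    exact this
  have hn2 : n ≤ 2 * Q * L := by nlinarith
  have hmain : L ^ K ≤ np n := by
    refine pow_le_np n K L ?_
    have h1 : K * ((L - 1) * (K + 3)) + Q = Q * L := by
      obtain ⟨l, hl⟩ := Nat.exists_eq_add_of_le hL1
      rw [hl, hQ]
      have : 1 + l - 1 = l := by omega
      rw [this]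
      ring
    omega
  refine le_trans ?_ hmain
  have h3 : n ^ K ≤ (2 * Q) ^ K * L ^ K := by
    rw [← mul_pow]
    exact Nat.pow_le_pow_left hn2 K
  have hn0 : 0 < n := by omega
  have h4 : n ^ k * (2 * Q) ^ K ≤ n ^ K := by
    have e : n ^ K = n ^ k * n ^ 2 := by rw [hK, pow_add]
    rw [e]
    refine Nat.mul_le_mul_left _ ?_
    rw [pow_two]
    calc (2 * Q) ^ K ≤ n := hn
      _ = n * 1 := (mul_one n).symm
      _ ≤ n * n := Nat.mul_le_mul_left n hn0
  have h5 : (2 * Q) ^ K * n ^ k ≤ (2 * Q) ^ K * L ^ K := by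
    rw [mul_comm ((2 * Q) ^ K) (n ^ k)]
    exact le_trans h4 h3
  exact Nat.le_of_mul_le_mul_left h5 (by positivity)

end Pool.Agent.VTP.H41
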